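import Mathlib
import Pool.Agent.J4H26.PC.Q1

set_option autoImplicit false

/-! Project PC (B3): the transfer over all scales. -/

namespace Pool.Agent.J4H8.PC

open Finset Filter Real
open Pool.Agent.J4H39 (T od ex pb ns rn stP th0 GS Gd Per exit_time od_lo pb_Gd pb_per pb_mono pb_or pb_nonneg
  ex_mono ex_congr ex_add ex_mul ex_const ex_pair od_comp rn_comp per_od per_rn th0_pos th0_lt th0_gt three_pow)
open Pool.Agent.J4H26.PC (Iv cc cg S_G1 S_GT)

theorem sum_bd {f : ℤ → ℝ} (hf : ∀ n, |f n| ≤ 1) {p q : ℤ} (h : p ≤ q) : |∑ n ∈ Finset.Ico p q, f n| ≤ ((q - p : ℤ) : ℝ) := by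
  refine (abs_sum_le_sum_abs _ _).trans ?_
  refine (sum_le_card_nsmul _ _ 1 (fun n _ => hf n)).trans ?_
  rw [Int.card_Ico, nsmul_eq_mul, mul_one]
  have : (((q - p).toNat : ℕ) : ℤ) = q - p := Int.toNat_of_nonneg (by omega)
  rw [← this]
  push_cast
  exact le_rfl

theorem ceil_gap {x a : ℝ} : ((⌈x + a⌉ - ⌈x⌉ : ℤ) : ℝ) ≤ a + 1 := by
  have h1 := Int.ceil_lt_add_one (x + a)
  have h2 := Int.le_ceil x
  push_cast
  linarith

theorem avg_bd {f : ℤ → ℝ} (hf : ∀ n, |f n| ≤ 1) (x a : ℝ) : |(∑ n ∈ Finset.Ico ⌈x⌉ ⌈x + a⌉, f n) / max a 1| ≤ 2 := by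
  have hm : (0 : ℝ) < max a 1 := lt_of_lt_of_le one_pos (le_max_right _ _)
  rcases le_or_gt 0 a with ha | ha
  · rw [abs_div, abs_of_pos hm, div_le_iff₀ hm]
    have h1 : ⌈x⌉ ≤ ⌈x + a⌉ := Int.ceil_le_ceil (by linarith)
    have h2 := sum_bd hf h1
    have h3 := ceil_gap (x := x) (a := a)
    have h4 := le_max_left a 1
    have h5 := le_max_right a 1
    linarith
  · have h1 : ⌈x + a⌉ ≤ ⌈x⌉ := Int.ceil_le_ceil (by linarith)
    rw [Finset.Ico_eq_empty (by omega)]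
    simp

theorem cc_bd {f g : ℤ → ℝ} (hf : Iv f) (hg : Iv g) (κ X : ℝ) (D : ℕ) (r : ℤ) : |cc f g κ X D r| ≤ 2 := by
  apply avg_bd (f := fun n => f n * g (3 ^ D * n + r))
  intro n
  rw [abs_mul]
  have h1 := hf.bd n
  have h2 := hg.bd (3 ^ D * n + r)
  exact mul_le_one₀ h1 (abs_nonneg _) h2

theorem cg_bd {f g : ℤ → ℝ} (hf : Iv f) (hg : Iv g) (κ X : ℝ) (s : ℤ × ℤ) : |cg f g κ X s| ≤ 2 := by
  unfold cg
  split_ifs
  · exact cc_bd hf hg _ _ _ _
  · exact cc_bd hg hf _ _ _ _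

open Classical in
theorem ex_cmp {t : ℕ} {F G : ℤ → ℝ} {Bad : ℤ → Prop} {c M : ℝ}
    (h1 : ∀ y, ¬ Bad y → |F y - G y| ≤ c) (h2 : ∀ y, |F y - G y| ≤ M) (hc : 0 ≤ c) : |ex t F - ex t G| ≤ c + M * pb t Bad := by
  have e : c + M * pb t Bad = ex t (fun y => c + M * (if Bad y then 1 else 0)) := by
    rw [ex_add, ex_const, ex_mul]; rfl
  rw [e]
  unfold ex
  rw [← sub_div, ← sum_sub_distrib, abs_div, abs_of_pos (by positivity : (0 : ℝ) < 2 ^ t)]
  apply div_le_div_of_nonneg_right _ (by positivity)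
  refine (abs_sum_le_sum_abs _ _).trans (sum_le_sum fun y _ => ?_)
  simp only
  by_cases h : Bad ((y : ℕ) : ℤ)
  · rw [if_pos h]; have := h2 ((y : ℕ) : ℤ); linarith
  · rw [if_neg h]; have := h1 _ h; linarith

/-- one stage for the averages over words -/
theorem stage {C : ℝ} {w j : ℕ} (h1 : ∀ f g : ℤ → ℝ, Iv f → Iv g → ∀ κ : ℝ, |κ| ≤ 1 → ∀ X : ℝ, (2 : ℝ) ^ (4 * j) ≤ X →
    ∀ s : ℤ × ℤ, |s.1| ≤ w ^ 48 → |s.2| ≤ 4 ^ (w ^ 56) →
    |cg f g κ X s - ex j (fun y => cg f g κ (3 ^ od j y * X / 2 ^ j) (rn stP j s y))| ≤ C / w)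
    (hC : 0 ≤ C) {f g : ℤ → ℝ} (hf : Iv f) (hg : Iv g) {κ X : ℝ} (hκ : |κ| ≤ 1) {t n δ l D : ℕ} (htn : t ≤ n)
    (hD : D + δ ≤ w ^ 48) (hr : D + 2 * δ + 0 + l + 1 ≤ w ^ 56)
    (hX : ∀ o : ℕ, t ≤ 2 * o + δ → (2 : ℝ) ^ (4 * j) ≤ 3 ^ o * X / 2 ^ t) :
    |ex t (fun y => cg f g κ (3 ^ od t y * X / 2 ^ t) (rn stP t ((D : ℤ), 0) y)) -
      ex (t + j) (fun y => cg f g κ (3 ^ od (t + j) y * X / 2 ^ (t + j)) (rn stP (t + j) ((D : ℤ), 0) y))| ≤
      C / w + 12 * pb n (fun y => ¬ Gd n (4 ^ l : ℕ) δ y) := by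
  set s0 : ℤ × ℤ := ((D : ℤ), 0) with hs0
  have e1 : ex (t + j) (fun y => cg f g κ (3 ^ od (t + j) y * X / 2 ^ (t + j)) (rn stP (t + j) s0 y)) =
      ex t (fun y => ex j (fun u => cg f g κ (3 ^ od j u * (3 ^ od t y * X / 2 ^ t) / 2 ^ j) (rn stP j (rn stP t s0 y) u))) := by
    rw [← ex_pair t j (fun y u => cg f g κ (3 ^ od j u * (3 ^ od t y * X / 2 ^ t) / 2 ^ j) (rn stP j (rn stP t s0 y) u))]
    · apply ex_congr
      intro y
      rw [od_comp, rn_comp, pow_add, pow_add]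
      congr 1
      field_simp
    · intro z x u
      simp only
      rw [per_od (le_refl t) x u, per_rn stP s0 (le_refl t) x u]
    · intro y x u
      simp only
      rw [per_od (le_refl j) x u, per_rn stP _ (le_refl j) x u]
  rw [e1]
  set Bad : ℤ → Prop := fun y => ¬ (GS (D + δ) (D + 2 * δ + 0 + l + 1) (rn stP t s0 y) ∧ t ≤ 2 * od t y + δ) with hBad
  have hbad : pb t Bad ≤ 3 * pb n (fun y => ¬ Gd n (4 ^ l : ℕ) δ y) := by
    have hper : Per t Bad := by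
      intro x u
      rw [hBad]
      simp only
      rw [per_od (le_refl t) x u, per_rn stP s0 (le_refl t) x u]
    rw [← pb_per htn hper]
    have hGS : GS D 0 s0 := ⟨by simp [hs0], by simp [hs0]⟩
    have h2 := exit_time (n := n) (l := l) (δ := δ) hGS
    have h3 : pb n Bad ≤ pb n (fun y => (∃ t ≤ n, ¬ GS (D + δ) (D + 2 * δ + 0 + l + 1) (rn stP t s0 y)) ∨
        ¬ Gd n (4 ^ l : ℕ) δ y) := by
      apply pb_mono
      intro y hy
      by_contra hcon
      rw [not_or, not_not] at hcon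
      obtain ⟨c1, c2⟩ := hcon
      push Not at c1
      exact hy ⟨c1 t htn, od_lo c2 htn⟩
    refine h3.trans ((pb_or _ _ _).trans ?_)
    linarith
  have h4 : |ex t (fun y => cg f g κ (3 ^ od t y * X / 2 ^ t) (rn stP t s0 y)) -
      ex t (fun y => ex j (fun u => cg f g κ (3 ^ od j u * (3 ^ od t y * X / 2 ^ t) / 2 ^ j) (rn stP j (rn stP t s0 y) u)))| ≤
      C / w + 4 * pb t Bad := by
    apply ex_cmp
    · intro y hy
      rw [hBad] at hy
      simp only [not_not] at hy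
      obtain ⟨⟨g1, g2⟩, g3⟩ := hy
      apply h1 f g hf hg κ hκ _ (hX _ g3)
      · refine g1.trans ?_
        exact_mod_cast hD
      · refine g2.trans ?_
        exact pow_le_pow_right₀ (by norm_num) hr
    · intro y
      have b1 := cg_bd hf hg κ (3 ^ od t y * X / 2 ^ t) (rn stP t s0 y)
      have b2 : |ex j (fun u => cg f g κ (3 ^ od j u * (3 ^ od t y * X / 2 ^ t) / 2 ^ j) (rn stP j (rn stP t s0 y) u))| ≤ 2 := by
        have c1 := ex_mono (j := j) (f := fun u => cg f g κ (3 ^ od j u * (3 ^ od t y * X / 2 ^ t) / 2 ^ j) (rn stP j (rn stP t s0 y) u))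
          (g := fun _ => 2) (fun u => (abs_le.mp (cg_bd hf hg κ _ _)).2)
        have c2 := ex_mono (j := j) (g := fun u => cg f g κ (3 ^ od j u * (3 ^ od t y * X / 2 ^ t) / 2 ^ j) (rn stP j (rn stP t s0 y) u))
          (f := fun _ => -2) (fun u => (abs_le.mp (cg_bd hf hg κ _ _)).1)
        rw [ex_const] at c1 c2
        rw [abs_le]
        exact ⟨c2, c1⟩
      rw [abs_le] at b1 b2 ⊢
      constructor <;> linarith [b1.1, b1.2, b2.1, b2.2]
    · positivity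
  linarith

/-- the number `w` of a stage -/
theorem exists_w {j v : ℕ} (hv : 200 ≤ v) (hj : v ^ 80 ≤ j) : ∃ w : ℕ, v ≤ w ∧ w ^ 80 ≤ j ∧ j ≤ 2 * w ^ 80 := by
  have hex : ∃ w, w ^ 80 ≤ j ∧ j < (w + 1) ^ 80 := by
    have h0 : ∃ u : ℕ, j < u ^ 80 := ⟨j + 1, by
      calc j < j + 1 := by omega
        _ ≤ (j + 1) ^ 80 := Nat.le_self_pow (by norm_num) _⟩
    have hpos : 0 < Nat.find h0 := by
      rw [Nat.pos_iff_ne_zero]
      intro h
      have := Nat.find_spec h0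
      rw [h] at this
      simp at this
    refine ⟨Nat.find h0 - 1, ?_, ?_⟩
    · have := Nat.find_min h0 (m := Nat.find h0 - 1) (by omega)
      push Not at this
      exact this
    · rw [Nat.sub_add_cancel hpos]
      exact Nat.find_spec h0
  obtain ⟨w, h1, h2⟩ := hex
  have hvw : v ≤ w := by
    by_contra hcon
    push Not at hcon
    have : (w + 1) ^ 80 ≤ v ^ 80 := Nat.pow_le_pow_left (by omega) _
    omega
  refine ⟨w, hvw, h1, ?_⟩
  have hw : (200 : ℝ) ≤ w := by exact_mod_cast hv.trans hvw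
  have hwp : (0 : ℝ) < (w : ℝ) + 1 := by linarith only [hw]
  have ha : (-2 : ℝ) ≤ -(1 / ((w : ℝ) + 1)) := by
    have : 1 / ((w : ℝ) + 1) ≤ 1 := by rw [div_le_one hwp]; linarith only [hw]
    linarith only [this]
  have h3 := one_add_mul_le_pow ha 80
  have h4 : 1 + (-(1 / ((w : ℝ) + 1))) = w / (w + 1) := by
    rw [eq_div_iff hwp.ne', add_mul, neg_mul, div_mul_cancel₀ _ hwp.ne']
    ring
  rw [h4, div_pow, le_div_iff₀ (pow_pos hwp 80)] at h3
  push_cast at h3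
  have h5 : (1 : ℝ) / 2 ≤ 1 + 80 * -(1 / ((w : ℝ) + 1)) := by
    have : 1 / ((w : ℝ) + 1) ≤ 1 / 200 := one_div_le_one_div_of_le (by norm_num) (by linarith only [hw])
    linarith only [this]
  have h6 : (1 : ℝ) / 2 * ((w : ℝ) + 1) ^ 80 ≤ (w : ℝ) ^ 80 := (mul_le_mul_of_nonneg_right h5 (pow_pos hwp 80).le).trans h3
  have h7 : (j : ℝ) ≤ ((w : ℝ) + 1) ^ 80 := by exact_mod_cast h2.le
  have h8 : (j : ℝ) ≤ 2 * (w : ℝ) ^ 80 := by
    generalize ((w : ℝ) + 1) ^ 80 = P at h6 h7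
    linarith only [h6, h7]
  exact_mod_cast h8

/-- the exceptional words are rare -/
theorem rare : ∀ᶠ v : ℕ in atTop, pb (15 * v ^ 95) (fun y => ¬ Gd (15 * v ^ 95) (4 ^ v : ℕ) (v ^ 48 / 2 : ℕ) y) ≤ 1 / v := by
  have t1 := ((Real.tendsto_exp_div_pow_atTop 191).comp tendsto_natCast_atTop_atTop).eventually_ge_atTop 136
  have hlin : Tendsto (fun v : ℕ => (v : ℝ) / 512) atTop atTop := tendsto_natCast_atTop_atTop.atTop_div_const (by norm_num)
  have t2 := ((Real.tendsto_exp_div_pow_atTop 96).comp hlin).eventually_ge_atTop (68 * 512 ^ 96)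
  filter_upwards [t1, t2, eventually_ge_atTop 2] with v t1 t2 hv
  have hv0 : (0 : ℝ) < v := by exact_mod_cast (by omega : 0 < v)
  have hv1 : (1 : ℝ) ≤ v := by exact_mod_cast (by omega : 1 ≤ v)
  have hn1 : 1 ≤ v ^ 95 := Nat.one_le_pow _ _ (by omega)
  have h95 : (1 : ℝ) ≤ (v : ℝ) ^ 95 := one_le_pow₀ hv1
  simp only [Function.comp] at t1 t2
  rw [le_div_iff₀ (by positivity)] at t1 t2
  have hd : (v : ℝ) ^ 48 / 4 ≤ ((v ^ 48 / 2 : ℕ) : ℝ) := by
    have h1 : v ^ 48 ≤ 4 * (v ^ 48 / 2) := by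
      have : 2 ≤ v ^ 48 := hv.trans (Nat.le_self_pow (by norm_num) _)
      omega
    have h2 : (v : ℝ) ^ 48 ≤ 4 * ((v ^ 48 / 2 : ℕ) : ℝ) := by exact_mod_cast h1
    linarith
  refine (pb_Gd (Nat.one_le_pow _ _ (by norm_num)) (by omega) (by positivity)).trans ?_
  push_cast
  set d : ℝ := ((v ^ 48 / 2 : ℕ) : ℝ) with hdd
  have e1 : Real.exp (-(d ^ 2 / (2 * (15 * (v : ℝ) ^ 95)))) ≤ Real.exp (-((v : ℝ) / 512)) := by
    apply Real.exp_le_exp.mpr
    apply neg_le_neg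
    rw [div_le_div_iff₀ (by norm_num) (by positivity)]
    have h3 : ((v : ℝ) ^ 48 / 4) ^ 2 ≤ d ^ 2 := pow_le_pow_left₀ (by positivity) hd 2
    calc (v : ℝ) * (2 * (15 * (v : ℝ) ^ 95)) = 30 * (v : ℝ) ^ 96 := by ring
      _ ≤ ((v : ℝ) ^ 48 / 4) ^ 2 * 512 := by
          have : ((v : ℝ) ^ 48 / 4) ^ 2 * 512 = 32 * (v : ℝ) ^ 96 := by ring
          rw [this]
          have : (0 : ℝ) ≤ (v : ℝ) ^ 96 := by positivity
          linarith
      _ ≤ d ^ 2 * 512 := by linarith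
  have e2 : Real.exp (v : ℝ) ≤ 4 ^ v := by
    have h1 : Real.exp 1 ≤ 4 := by have := Real.exp_one_lt_d9; linarith
    calc Real.exp (v : ℝ) = Real.exp 1 ^ v := by rw [← Real.exp_nat_mul, mul_one]
      _ ≤ 4 ^ v := pow_le_pow_left₀ (Real.exp_pos 1).le h1 v
  have e3 : (15 * (v : ℝ) ^ 95) / (4 * 4 ^ v) ≤ 1 / (34 * v * (v : ℝ) ^ 95) := by
    rw [div_le_div_iff₀ (by positivity) (by positivity)]
    calc 15 * (v : ℝ) ^ 95 * (34 * v * (v : ℝ) ^ 95) = 510 * (v : ℝ) ^ 191 := by ring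
      _ ≤ 4 * (136 * (v : ℝ) ^ 191) := by
          have : (0 : ℝ) ≤ (v : ℝ) ^ 191 := by positivity
          linarith
      _ ≤ 4 * 4 ^ v := by linarith
      _ = 1 * (4 * 4 ^ v) := by ring
  have e4 : 2 * Real.exp (-((v : ℝ) / 512)) ≤ 1 / (34 * v * (v : ℝ) ^ 95) := by
    rw [Real.exp_neg, le_div_iff₀ (by positivity)]
    have h1 : 68 * (v : ℝ) ^ 96 ≤ Real.exp ((v : ℝ) / 512) := by
      have : 68 * 512 ^ 96 * ((v : ℝ) / 512) ^ 96 = 68 * (v : ℝ) ^ 96 := by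
        rw [div_pow]; field_simp
      linarith
    have h2 : 2 * (Real.exp ((v : ℝ) / 512))⁻¹ * (34 * v * (v : ℝ) ^ 95) = 68 * (v : ℝ) ^ 96 / Real.exp ((v : ℝ) / 512) := by
      rw [div_eq_mul_inv]; ring
    rw [h2, div_le_one (Real.exp_pos _)]
    exact h1
  have e5 : 15 * (v : ℝ) ^ 95 + 1 ≤ 17 * (v : ℝ) ^ 95 := by linarith
  calc (15 * (v : ℝ) ^ 95 + 1) * (15 * (v : ℝ) ^ 95 / (4 * (4 : ℝ) ^ v) + 2 * Real.exp (-(d ^ 2 / (2 * (15 * (v : ℝ) ^ 95))))) ≤
      (17 * (v : ℝ) ^ 95) * (1 / (34 * (v : ℝ) * (v : ℝ) ^ 95) + 1 / (34 * (v : ℝ) * (v : ℝ) ^ 95)) := by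
        apply mul_le_mul e5 (by linarith) (by positivity) (by positivity)
    _ = 1 / (v : ℝ) := by field_simp; norm_num

/-- the number of stages -/
theorem count : ∀ᶠ v : ℕ in atTop, (v : ℝ) ^ 7 ≤ (100 / 99 : ℝ) ^ Nat.sqrt v := by
  have h1 := tendsto_pow_const_div_const_pow_of_one_lt 14 (by norm_num : (1 : ℝ) < 100 / 99)
  have h2 : ∀ᶠ n : ℕ in atTop, (n : ℝ) ^ 14 / (100 / 99) ^ n < 1 / 2 ^ 14 := h1.eventually_lt_const (by norm_num)
  have h3 : ∀ᶠ n : ℕ in atTop, ((n : ℝ) + 1) ^ 14 ≤ (100 / 99) ^ n := by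
    filter_upwards [h2, eventually_ge_atTop 1] with n h hn
    rw [div_lt_iff₀ (by positivity)] at h
    have hn1 : (1 : ℝ) ≤ n := by exact_mod_cast hn
    calc ((n : ℝ) + 1) ^ 14 ≤ (2 * n) ^ 14 := pow_le_pow_left₀ (by positivity) (by linarith) _
      _ = 2 ^ 14 * (n : ℝ) ^ 14 := by rw [mul_pow]
      _ ≤ 2 ^ 14 * (1 / 2 ^ 14 * (100 / 99) ^ n) := by gcongr
      _ = (100 / 99) ^ n := by ring
  have h4 : Tendsto Nat.sqrt atTop atTop := by
    rw [tendsto_atTop]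
    intro b
    filter_upwards [eventually_ge_atTop (b * b)] with v hv
    exact Nat.le_sqrt.mpr hv
  filter_upwards [h4.eventually h3] with v h
  have h5 : (v : ℝ) ≤ ((Nat.sqrt v : ℕ) + 1 : ℝ) ^ 2 := by
    have := (Nat.lt_succ_sqrt v).le
    rw [pow_two]
    exact_mod_cast this
  calc (v : ℝ) ^ 7 ≤ (((Nat.sqrt v : ℕ) + 1 : ℝ) ^ 2) ^ 7 := pow_le_pow_left₀ (by positivity) h5 _
    _ = ((Nat.sqrt v : ℕ) + 1 : ℝ) ^ 14 := by rw [← pow_mul]
    _ ≤ _ := h

theorem t_GT : S_G1 → S_GT := by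
  rintro ⟨C, hC, hG⟩
  obtain ⟨w₀, hw₀⟩ := eventually_atTop.mp hG
  refine ⟨C + 12, by linarith, ?_⟩
  filter_upwards [rare, count, eventually_ge_atTop 200, eventually_ge_atTop w₀] with v hrare hcount hv hvw X hX hL1 hL2
  have hv0 : (0 : ℝ) < v := by exact_mod_cast (by omega : 0 < v)
  have hv200 : (200 : ℝ) ≤ v := by exact_mod_cast hv
  have hv1 : (1 : ℝ) ≤ v := by linarith
  set L := logb 2 X with hL
  have hX2 : X = (2 : ℝ) ^ L := by rw [hL, Real.rpow_logb (by norm_num) (by norm_num) hX]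
  set n := 15 * v ^ 95 with hn
  set δ := v ^ 48 / 2 with hδ
  have hθ0 := th0_pos
  have hθ1 := th0_lt
  have hθ2 := th0_gt
  have hp88 : (0 : ℝ) < (v : ℝ) ^ 88 := by positivity
  -- the main induction
  have key : ∀ m : ℕ, ∀ t : ℕ, 9 * (v : ℝ) ^ 88 ≤ L - th0 * t → L - th0 * t ≤ 12 * (v : ℝ) ^ 88 * (100 / 99) ^ m →
      ∃ t' : ℕ, 9 * (v : ℝ) ^ 88 ≤ L - th0 * t' ∧ L - th0 * t' ≤ 12 * (v : ℝ) ^ 88 ∧
      ∀ f g : ℤ → ℝ, Iv f → Iv g → ∀ κ : ℝ, |κ| ≤ 1 → ∀ D : ℕ, 4 * D ≤ v ^ 48 →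
      |ex t (fun y => cg f g κ (3 ^ od t y * X / 2 ^ t) (rn stP t ((D : ℤ), 0) y)) -
        ex t' (fun y => cg f g κ (3 ^ od t' y * X / 2 ^ t') (rn stP t' ((D : ℤ), 0) y))| ≤ m * ((C + 12) / v) := by
    intro m
    induction m with
    | zero =>
      intro t h1 h2
      rw [pow_zero, mul_one] at h2
      refine ⟨t, h1, h2, ?_⟩
      intro f g _ _ κ _ D _
      simp
    | succ m ih =>
      intro t h1 h2
      rcases le_or_gt (L - th0 * t) (12 * (v : ℝ) ^ 88) with h3 | h3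
      · refine ⟨t, h1, h3, ?_⟩
        intro f g _ _ κ _ D _
        rw [sub_self, abs_zero]
        positivity
      · set lam := L - th0 * t with hlam
        set j := ⌊lam / 10⌋₊ with hj
        have hlam0 : 0 < lam := by linarith
        have hj1 : (j : ℝ) ≤ lam / 10 := Nat.floor_le (by positivity)
        have hj2 : lam / 10 - 1 < j := by have := Nat.lt_floor_add_one (lam / 10); rw [← hj] at this; linarith
        have h88 : (200 : ℝ) ≤ (v : ℝ) ^ 88 := hv200.trans (le_self_pow₀ hv1 (by norm_num))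
        have hjv : v ^ 80 ≤ j := by
          have e1 : (v : ℝ) ^ 80 ≤ (v : ℝ) ^ 88 := pow_le_pow_right₀ hv1 (by norm_num)
          have e2 : (v : ℝ) ^ 80 ≤ j := by linarith
          exact_mod_cast e2
        obtain ⟨w, hvw', hw1, hw2⟩ := exists_w hv hjv
        have hlam' : L - th0 * ((t + j : ℕ) : ℝ) = lam - th0 * j := by rw [hlam]; push_cast; ring
        have hθj1 : th0 * j ≤ 1 / 4 * (lam / 10) := by
          apply mul_le_mul hθ1.le hj1 (by positivity) (by norm_num)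
        have hθj2 : 1 / 5 * (lam / 10 - 1) ≤ th0 * j := by
          apply mul_le_mul hθ2.le hj2.le (by linarith) hθ0.le
        obtain ⟨t', k1, k2, k3⟩ := ih (t + j) (by rw [hlam']; linarith) (by
          rw [hlam']
          rw [pow_succ (100 / 99 : ℝ) m] at h2
          linarith)
        refine ⟨t', k1, k2, ?_⟩
        intro f g hf hg κ hκ D hD
        have htn : t ≤ n := by
          have e1 : th0 * t ≤ 3 * (v : ℝ) ^ 95 := by linarith
          have e2 : 1 / 5 * (t : ℝ) ≤ th0 * t := mul_le_mul_of_nonneg_right hθ2.le (by positivity)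
          have e3 : (t : ℝ) ≤ 15 * (v : ℝ) ^ 95 := by linarith
          exact_mod_cast e3
        have hδ2 : 2 * δ ≤ v ^ 48 := by omega
        have hw48 : v ^ 48 ≤ w ^ 48 := Nat.pow_le_pow_left hvw' _
        have hw56 : v ^ 56 ≤ w ^ 56 := Nat.pow_le_pow_left hvw' _
        have h4856 : 3 * v ^ 48 ≤ v ^ 56 := by
          calc 3 * v ^ 48 ≤ v ^ 8 * v ^ 48 := Nat.mul_le_mul_right _ ((by omega : 3 ≤ v).trans (Nat.le_self_pow (by norm_num) _))
            _ = v ^ 56 := by rw [← pow_add]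
        have hvv : v ≤ v ^ 48 := Nat.le_self_pow (by norm_num) _
        have hst := stage (n := n) (δ := δ) (l := v) (X := X) (hw₀ w (hvw.trans hvw') j hw1 hw2) hC.le hf hg hκ htn (D := D)
          (by omega) (by omega) (by
          intro o ho
          rw [three_pow, hX2, ← Real.rpow_natCast 2 t, ← Real.rpow_add (by norm_num), ← Real.rpow_sub (by norm_num),
            ← Real.rpow_natCast 2 (4 * j)]
          apply Real.rpow_le_rpow_of_exponent_le (by norm_num)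
          have e1 : (t : ℝ) ≤ 2 * o + δ := by exact_mod_cast ho
          have e2 : (1 - th0) * t ≤ (1 - th0) * (2 * o + δ) := mul_le_mul_of_nonneg_left e1 (by linarith)
          have e3 : (δ : ℝ) ≤ (v : ℝ) ^ 88 := by
            have : δ ≤ v ^ 88 := by
              have : v ^ 48 ≤ v ^ 88 := Nat.pow_le_pow_right (by omega) (by norm_num)
              omega
            exact_mod_cast this
          have e4 : (1 - th0) * (δ : ℝ) ≤ 1 * δ := mul_le_mul_of_nonneg_right (by linarith) (by positivity)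
          push_cast
          have e5 : 2 * (1 - th0) * o + L - t = (1 - th0) * (2 * o + δ) - (1 - th0) * δ + L - t := by ring
          have e6 : (1 - th0) * t + L - t = lam := by rw [hlam]; ring
          linarith)
        have hbad : 12 * pb n (fun y => ¬ Gd n (4 ^ v : ℕ) δ y) ≤ 12 * (1 / v) := by linarith
        have hCw : C / w ≤ C / v := by
          apply div_le_div_of_nonneg_left hC.le hv0
          exact_mod_cast hvw'
        have k4 := k3 f g hf hg κ hκ D hD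
        refine (abs_sub_le _ _ _).trans ((add_le_add hst k4).trans ?_)
        push_cast
        have e7 : ((m : ℝ) + 1) * ((C + 12) / v) = C / v + 12 * (1 / v) + m * ((C + 12) / v) := by ring
        rw [e7]
        linarith
  have h0 : L - th0 * ((0 : ℕ) : ℝ) = L := by push_cast; ring
  have h94 : 9 * (v : ℝ) ^ 88 ≤ (v : ℝ) ^ 94 := by
    calc 9 * (v : ℝ) ^ 88 ≤ (v : ℝ) ^ 6 * (v : ℝ) ^ 88 := by
          apply mul_le_mul_of_nonneg_right _ hp88.le
          exact (by linarith : (9 : ℝ) ≤ v).trans (le_self_pow₀ hv1 (by norm_num))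
      _ = (v : ℝ) ^ 94 := by rw [← pow_add]
  obtain ⟨t', k1, k2, k3⟩ := key (Nat.sqrt v) 0 (by rw [h0]; linarith) (by
    rw [h0]
    calc L ≤ 3 * (v : ℝ) ^ 95 := hL2
      _ = 3 * (v : ℝ) ^ 88 * (v : ℝ) ^ 7 := by ring
      _ ≤ 12 * (v : ℝ) ^ 88 * (100 / 99) ^ Nat.sqrt v := by
          apply mul_le_mul _ hcount (by positivity) (by positivity)
          linarith)
  refine ⟨t', k1, k2, ?_⟩
  intro f g hf hg κ hκ D hD
  have k4 := k3 f g hf hg κ hκ D hD
  have e0 : ex 0 (fun y => cg f g κ (3 ^ od 0 y * X / 2 ^ 0) (rn stP 0 ((D : ℤ), 0) y)) = cc f g κ X D 0 := by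
    unfold ex
    simp [od, rn, cg]
  rw [e0] at k4
  refine k4.trans ?_
  have hs : ((Nat.sqrt v : ℕ) : ℝ) ≤ √v := by
    apply Real.le_sqrt_of_sq_le
    exact_mod_cast Nat.sqrt_le' v
  have hsv : √(v : ℝ) * √v = v := Real.mul_self_sqrt hv0.le
  have hsp : 0 < √(v : ℝ) := Real.sqrt_pos.mpr hv0
  calc ((Nat.sqrt v : ℕ) : ℝ) * ((C + 12) / v) ≤ √v * ((C + 12) / v) := mul_le_mul_of_nonneg_right hs (by positivity)
    _ = (C + 12) / √v := by
        rw [mul_div_assoc', div_eq_div_iff hv0.ne' hsp.ne']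
        calc √(v : ℝ) * (C + 12) * √v = (C + 12) * (√v * √v) := by ring
          _ = (C + 12) * v := by rw [hsv]

end Pool.Agent.J4H8.PC
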